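import Mathlib

/-!
# Autocharacterized open direct summands of finite index need not be T-characterized
-/

namespace Pool.Agent.Results.MP_67c2f3_gt.SummandNotT

open Filter Topology

/-- `s_v(X) = {x : v_n(x) → 0}` for a sequence `v` of continuous characters `X → 𝕋 = ℝ/ℤ`. -/
def sSub {X : Type} [AddCommGroup X] [TopologicalSpace X]
    (v : ℕ → (X →ₜ+ UnitAddCircle)) : AddSubgroup X where
  carrier := {x | Tendsto (fun n => v n x) atTop (𝓝 0)}
  zero_mem' := by simp
  add_mem' := by
    intro a b ha hb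
    have := Tendsto.add ha hb
    simpa using this
  neg_mem' := by
    intro a ha
    have := Tendsto.neg ha
    simpa using this

/-- `u` is a T-sequence in the abstract abelian group `G`: some Hausdorff group topology on `G`
makes it converge to `0`. -/
def IsTSequence {G : Type} [AddCommGroup G] (u : ℕ → G) : Prop :=
  ∃ t : TopologicalSpace G, @IsTopologicalAddGroup G t _ ∧ @T2Space G t ∧
    Tendsto u atTop (@nhds G t 0)

/-- `H` is T-characterized in `X`: `H = s_v(X)` for a sequence `v` of continuous characters that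
is a T-sequence in the character group of `X`. -/
def IsTCharacterized {X : Type} [AddCommGroup X] [TopologicalSpace X]
    (H : AddSubgroup X) : Prop :=
  ∃ v : ℕ → (X →ₜ+ UnitAddCircle), IsTSequence v ∧ H = sSub v

/-- `Y` is autocharacterized: `Y = s_u(Y)` for a sequence `u` of continuous characters that is
not eventually zero. -/
def IsAutocharacterized (Y : Type) [AddCommGroup Y] [TopologicalSpace Y] : Prop :=
  ∃ u : ℕ → (Y →ₜ+ UnitAddCircle), (¬ ∀ᶠ n in atTop, u n = 0) ∧ sSub u = ⊤

/-- `H` is a topological direct summand of `X`: for some subgroup `Z` the (homomorphic) map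
`H × Z → X`, `(h, z) ↦ h + z`, is a homeomorphism. -/
def IsTopDirectSummand {X : Type} [AddCommGroup X] [TopologicalSpace X]
    (H : AddSubgroup X) : Prop :=
  ∃ Z : AddSubgroup X, IsHomeomorph (fun p : H × Z => (p.1 : X) + (p.2 : X))

/-- An element of order two of the circle is unique. -/
lemma two_torsion {s t : UnitAddCircle} (hs : (2 : ℕ) • s = 0) (ht : (2 : ℕ) • t = 0)
    (hs0 : s ≠ 0) (ht0 : t ≠ 0) : s = t := by
  have key : ∀ r : UnitAddCircle, (2 : ℕ) • r = 0 → r ≠ 0 → r = (((1 : ℝ) / 2 : ℝ) : UnitAddCircle) := by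
    intro r hr hr0
    induction r using QuotientAddGroup.induction_on with
    | H a =>
      have h1 : (((2 : ℕ) • a : ℝ) : UnitAddCircle) = 0 := hr
      rw [AddCircle.coe_eq_zero_iff] at h1
      obtain ⟨k, hk⟩ := h1
      have hk' : (k : ℝ) = 2 * a := by simpa using hk
      rcases Int.even_or_odd k with ⟨m, hm⟩ | ⟨m, hm⟩
      · exfalso
        apply hr0
        have : a = (m : ℝ) := by
          have : (k : ℝ) = (m : ℝ) + m := by rw [hm]; push_cast; ring
          linarith
        show ((a : ℝ) : UnitAddCircle) = 0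
        rw [AddCircle.coe_eq_zero_iff]
        exact ⟨m, by simp [this]⟩
      · have h2 : a = (m : ℝ) + 1 / 2 := by
          have : (k : ℝ) = 2 * (m : ℝ) + 1 := by rw [hm]; push_cast; ring
          linarith
        show ((a : ℝ) : UnitAddCircle) = _
        rw [h2, AddCircle.coe_add]
        have : (((m : ℝ)) : UnitAddCircle) = 0 := by
          rw [AddCircle.coe_eq_zero_iff]
          exact ⟨m, by simp⟩
        rw [this, zero_add]
  rw [key s hs hs0, key t ht ht0]

/-- There are a (countable, discrete) topological abelian group `X` and an open subgroup `H` of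
finite index that is autocharacterized and a topological direct summand of `X`, but is not
T-characterized in `X`. -/
theorem result :
    ∃ (X : Type) (_ : AddCommGroup X) (_ : TopologicalSpace X) (_ : IsTopologicalAddGroup X)
      (H : AddSubgroup X), Countable X ∧ DiscreteTopology X ∧
      IsOpen (H : Set X) ∧ H.FiniteIndex ∧ IsAutocharacterized H ∧ IsTopDirectSummand H ∧
      ¬ IsTCharacterized H := by
  classical
  let _ : TopologicalSpace ((ℕ →₀ ZMod 3) × ZMod 2) := ⊥
  have : DiscreteTopology ((ℕ →₀ ZMod 3) × ZMod 2) := ⟨rfl⟩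
  let H : AddSubgroup ((ℕ →₀ ZMod 3) × ZMod 2) :=
    (AddMonoidHom.snd (ℕ →₀ ZMod 3) (ZMod 2)).ker
  have memH : ∀ x : (ℕ →₀ ZMod 3) × ZMod 2, x ∈ H ↔ x.2 = 0 := fun x => Iff.rfl
  refine ⟨(ℕ →₀ ZMod 3) × ZMod 2, inferInstance, inferInstance, inferInstance, H,
    inferInstance, inferInstance, isOpen_discrete _, ?_, ?_, ?_, ?_⟩
  · exact inferInstance
  · refine ⟨fun n => ⟨(ZMod.toAddCircle (N := 3)).comp
      ((Finsupp.applyAddHom n).comp ((AddMonoidHom.fst _ _).comp H.subtype)),
      continuous_of_discreteTopology⟩, ?_, ?_⟩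
    · intro h
      obtain ⟨n, hn⟩ := h.exists
      have h1 := DFunLike.congr_fun hn ⟨(Finsupp.single n 1, 0), (memH _).2 rfl⟩
      have h2 : ZMod.toAddCircle (N := 3) 1 = 0 := by
        have h3 : ZMod.toAddCircle (N := 3) ((Finsupp.single n (1 : ZMod 3)) n) = 0 := h1
        rwa [Finsupp.single_eq_same] at h3
      have h4 : (1 : ZMod 3) = 0 := ZMod.toAddCircle_injective 3 (by rw [h2, map_zero])
      exact absurd h4 (by decide)
    · rw [eq_top_iff]
      rintro ⟨x, hx⟩ -
      show Tendsto _ atTop (𝓝 0)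
      apply tendsto_const_nhds.congr'
      obtain ⟨N, hN⟩ : ∃ N, ∀ n ≥ N, x.1 n = 0 := by
        refine ⟨x.1.support.sup id + 1, fun n hn => ?_⟩
        by_contra h
        have := Finset.le_sup (f := id) (Finsupp.mem_support_iff.2 h)
        simp only [id] at this
        omega
      filter_upwards [eventually_ge_atTop N] with n hn
      show 0 = ZMod.toAddCircle (N := 3) (x.1 n)
      rw [hN n hn, map_zero]
  · refine ⟨(AddMonoidHom.fst (ℕ →₀ ZMod 3) (ZMod 2)).ker, continuous_of_discreteTopology,
      fun _ _ => isOpen_discrete _, ?_, ?_⟩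
    · rintro ⟨⟨⟨a1, a2⟩, ha⟩, ⟨⟨b1, b2⟩, hb⟩⟩ ⟨⟨⟨c1, c2⟩, hc⟩, ⟨⟨d1, d2⟩, hd⟩⟩ h
      have ha' : a2 = 0 := ha
      have hc' : c2 = 0 := hc
      have hb' : b1 = 0 := hb
      have hd' : d1 = 0 := hd
      subst ha' hc' hb' hd'
      simpa using h
    · rintro ⟨a, b⟩
      exact ⟨(⟨(a, 0), (memH _).2 rfl⟩, ⟨(0, b), rfl⟩), by simp⟩
  · rintro ⟨v, ⟨t, htg, ht2, hlim⟩, hH⟩
    have htwo : ∀ n, (2 : ℕ) • v n (0, 1) = 0 := by
      intro n
      rw [← map_nsmul]
      have : (2 : ℕ) • ((0, 1) : (ℕ →₀ ZMod 3) × ZMod 2) = 0 := by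
        ext
        · simp
        · show (2 : ℕ) • (1 : ZMod 2) = 0
          decide
      rw [this, map_zero]
    have hfreq : ∃ᶠ n in atTop, v n (0, 1) ≠ 0 := by
      intro h
      have h01 : ((0, 1) : (ℕ →₀ ZMod 3) × ZMod 2) ∈ H := by
        rw [hH]
        show Tendsto _ atTop (𝓝 0)
        apply tendsto_const_nhds.congr'
        filter_upwards [h] with n hn
        exact (not_not.1 hn).symm
      exact absurd ((memH _).1 h01) (by decide)
    obtain ⟨n₀, hn₀⟩ := hfreq.exists
    have hthree : ∀ n (x : (ℕ →₀ ZMod 3) × ZMod 2),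
        (v n + v n + v n) x = v n (0, x.2) := by
      intro n x
      show v n x + v n x + v n x = v n (0, x.2)
      rw [← map_add, ← map_add]
      congr 1
      ext i
      · show x.1 i + x.1 i + x.1 i = 0
        generalize x.1 i = z
        revert z
        decide
      · show x.2 + x.2 + x.2 = x.2
        generalize x.2 = z
        revert z
        decide
    have hχ : ∀ n, v n (0, 1) ≠ 0 → v n + v n + v n = v n₀ + v n₀ + v n₀ := by
      intro n hn
      ext x
      rw [hthree, hthree]
      have hz : ∀ z : ZMod 2, v n (0, z) = v n₀ (0, z) := by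
        intro z
        have : z = 0 ∨ z = 1 := by
          revert z
          decide
        rcases this with rfl | rfl
        · rw [show ((0, 0) : (ℕ →₀ ZMod 3) × ZMod 2) = 0 from rfl, map_zero, map_zero]
        · exact two_torsion (htwo n) (htwo n₀) hn hn₀
      exact hz x.2
    have hχ0 : v n₀ + v n₀ + v n₀ ≠ 0 := by
      intro h
      apply hn₀
      have h1 := DFunLike.congr_fun h ((0, 1) : (ℕ →₀ ZMod 3) × ZMod 2)
      rw [hthree] at h1
      exact h1
    have hlim3 : Tendsto (fun n => v n + v n + v n) atTop (@nhds _ t 0) := by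
      have h1 := (hlim.add hlim).add hlim
      simpa only [add_zero] using h1
    have hopen : {(v n₀ + v n₀ + v n₀)}ᶜ ∈ @nhds _ t (0 : ((ℕ →₀ ZMod 3) × ZMod 2) →ₜ+ UnitAddCircle) :=
      (@isOpen_compl_singleton _ t _ _).mem_nhds (by simpa using hχ0.symm)
    have hev := hlim3.eventually hopen
    obtain ⟨n, hn1, hn2⟩ := (hfreq.and_eventually hev).exists
    exact hn2 (by simpa using hχ n hn1)

end Pool.Agent.Results.MP_67c2f3_gt.SummandNotT
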